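import Pool.Agent.W851.BE.Stm

/-!
Project BE (owner helper851): the local degree from a neighbourhood with a single preimage.
-/

open Polynomial Topology Filter MeasureTheory
open scoped ENNReal

namespace Pool.Agent.W565.BE

open Pool.Agent.W95.BK Pool.Agent.W851.BE

universe u

theorem main (hT2 : S_T2.{u}) (hD : S_DENSE.{u}) (hAC : S_ACTC.{u}) (hA : S_ACT.{u})
    (hLD : S_LDEX.{u}) : S_UNIQ.{u} := by
  classical
  intro K _ _ _ f x y hx hxy U hU hxU huniq m hm
  obtain ⟨m', -, hloc, hm'⟩ := hLD K f x hx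
  obtain ⟨U1, hU1, hsub, hev⟩ := hloc U (hU.mem_nhds hxU)
  have : T2Space (P1B K) := (hT2 K).2.2.1
  have hxV : (x : P1B K) ∈ interior U1 := mem_interior_iff_mem_nhds.mpr hU1
  have hZc : IsClosed (closure U \ interior U1) := isClosed_closure.sdiff isOpen_interior
  have hIc : IsClosed (f.act '' (closure U \ interior U1)) :=
    (hZc.isCompact.image (hAC K f)).isClosed
  have hy : (y : P1B K) ∉ f.act '' (closure U \ interior U1) := by
    rintro ⟨w, ⟨hw1, hw2⟩, hw⟩
    exact hw2 (huniq w hw1 hw ▸ hxV)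
  have hnear : ∀ᶠ b in toward (y : P1B K),
      ((cl b : BA K) : P1B K) ∉ f.act '' (closure U \ interior U1) := by
    have h1 : (f.act '' (closure U \ interior U1))ᶜ ∈ 𝓝 (y : P1B K) :=
      hIc.isOpen_compl.mem_nhds hy
    exact preimage_mem_comap h1
  rw [hxy] at hev
  have : (toward (y : P1B K)).NeBot := hD K (y : P1B K)
  obtain ⟨b, hb1, hb2, hb3⟩ := (hm.and (hev.and hnear)).exists
  rw [hm', ← hb1, ← hb2]
  unfold cnt
  refine congrArg Multiset.card ?_
  refine Multiset.filter_congr (fun w hw => ⟨fun h => hsub h, fun h => ?_⟩)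
  by_contra hne
  refine hb3 ⟨w, ⟨subset_closure h, fun hi => hne (interior_subset hi)⟩, ?_⟩
  exact (hA K f).2.2.2.1 b w hw

end Pool.Agent.W565.BE
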